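import Pool.Agent.Helper67.SPN.Rho
import Pool.Agent.Helper76.CG.Irr

/-! # Irreducibility of the spin group (row IRRS of MP_005e41 extension)

Every element is a product of elements `ι v * ι w`, `v.v = w.w = -1`, and these are joined to `1`
by rational curves.
-/

namespace Pool.Agent.Helper72.SPN

set_option linter.unusedSectionVars false

open Matrix CliffordAlgebra Pool.Agent.Helper14.RG Pool.Agent.Helper97.CG Pool.Agent.Helper67.SPN

section defs

variable {k : Type*} [Field k] {n : Type} [Fintype n] [DecidableEq n]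

lemma iota_pin {v : n → k} (hv : v ⬝ᵥ v = -1) : ι (Qn n k) v ∈ pinGroup (Qn n k) := by
  have hs0 : v ⬝ᵥ v ≠ 0 := by rw [hv]; exact neg_ne_zero.mpr one_ne_zero
  have h1 := Cov.vec v hs0 1 one_ne_zero
  have h2 : (1 * (v ⬝ᵥ v))⁻¹ • ι (Qn n k) v = star (ι (Qn n k) v) := by
    rw [star_ι, hv, one_mul, inv_neg, inv_one, neg_smul, one_smul]
  rw [h2, one_smul] at h1
  refine ⟨⟨⟨_, _, h1.mul_inv, h1.inv_mul⟩, Subgroup.subset_closure ⟨v, rfl⟩, rfl⟩, ?_⟩
  exact ⟨h1.inv_mul, h1.mul_inv⟩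

/-- The element `ι v * ι w`. -/
noncomputable def mkS (v w : n → k) (hv : v ⬝ᵥ v = -1) (hw : w ⬝ᵥ w = -1) : SpinG n k :=
  ⟨ι (Qn n k) v * ι (Qn n k) w, mul_mem (iota_pin hv) (iota_pin hw),
    ι_mul_ι_mem_evenOdd_zero (Qn n k) v w⟩

lemma mkS_coe (v w : n → k) (hv : v ⬝ᵥ v = -1) (hw : w ⬝ᵥ w = -1) :
    ((mkS v w hv hw : SpinG n k) : Cln n k) = ι (Qn n k) v * ι (Qn n k) w := rfl

lemma mkS_mul (v z w : n → k) (hv : v ⬝ᵥ v = -1) (hz : z ⬝ᵥ z = -1) (hw : w ⬝ᵥ w = -1)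
    (hz' : (-z) ⬝ᵥ (-z) = -1) :
    mkS v w hv hw = mkS v z hv hz * mkS (-z) w hz' hw := by
  apply Subtype.ext
  show ι (Qn n k) v * ι (Qn n k) w =
    ι (Qn n k) v * ι (Qn n k) z * (ι (Qn n k) (-z) * ι (Qn n k) w)
  have h1 : ι (Qn n k) z * ι (Qn n k) (-z) = 1 := by
    rw [map_neg, mul_neg, ι_sq, hz, map_neg, map_one, neg_neg]
  calc ι (Qn n k) v * ι (Qn n k) w
      = ι (Qn n k) v * (ι (Qn n k) z * ι (Qn n k) (-z)) * ι (Qn n k) w := by rw [h1, mul_one]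
    _ = _ := by simp only [mul_assoc]

lemma mkS_one (v : n → k) (hv : v ⬝ᵥ v = -1) (hv' : (-v) ⬝ᵥ (-v) = -1) :
    mkS v (-v) hv hv' = 1 := by
  apply Subtype.ext
  show ι (Qn n k) v * ι (Qn n k) (-v) = 1
  rw [map_neg, mul_neg, ι_sq, hv, map_neg, map_one, neg_neg]

lemma sAlg_rstable' : RStable (sAlg n k) := by
  intro h a ha
  unfold sAlg at ha ⊢
  induction ha using Algebra.adjoin_induction with
  | mem x hx =>
    obtain ⟨φ, rfl⟩ := hx
    refine Algebra.subset_adjoin ⟨φ ∘ₗ LinearMap.mulRight k (h : Cln n k), ?_⟩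
    funext g
    rfl
  | algebraMap r => exact Subalgebra.algebraMap_mem _ r
  | add x y _ _ hx hy => exact add_mem hx hy
  | mul x y _ _ hx hy => exact mul_mem hx hy

lemma refl_norm {u p : n → k} (hp : p ⬝ᵥ p = -1) :
    (refl u *ᵥ p) ⬝ᵥ (refl u *ᵥ p) = -1 := by
  rw [refl_mulVec]
  simp only [sub_dotProduct, dotProduct_sub, smul_dotProduct, dotProduct_smul, smul_eq_mul]
  rw [dotProduct_comm p u, hp]
  by_cases hu : u ⬝ᵥ u = 0
  · rw [hu]; simp
  · field_simp; ring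

end defs

section curves

variable {k : Type*} [Field k] {n : Type} [Fintype n] [DecidableEq n] [CharZero k]

lemma jn_curve (γ : k → SpinG n k) {D : k → k} (hD : D ∈ Pol k)
    (h0 : D 0 ≠ 0) (h1 : D 1 ≠ 0) (hγ0 : γ 0 = 1)
    (hγ : ∀ φ : Cln n k →ₗ[k] k, (fun t => φ (γ t : Cln n k)) ∈ RegU (Pol k) D) :
    Jn (sAlg n k) (γ 1) := by
  intro a ha b hb g hg hb'
  have key : ∀ c ∈ sAlg n k, (fun t => c (g * γ t)) ∈ RegU (Pol k) D := by
    intro c hc
    unfold sAlg at hc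
    induction hc using Algebra.adjoin_induction with
    | mem x hx =>
      obtain ⟨φ, rfl⟩ := hx
      exact hγ (φ ∘ₗ LinearMap.mulLeft k (g : Cln n k))
    | algebraMap r => exact Subalgebra.algebraMap_mem _ r
    | add x y _ _ hx hy => exact add_mem hx hy
    | mul x y _ _ hx hy => exact mul_mem hx hy
  obtain ⟨t, -, e1, e2⟩ := pol_join hD (key a ha) (key b hb) h0 h1
    (by rw [hγ0, mul_one]; exact hg) hb'
  exact ⟨g * γ t, e1, e2⟩

lemma jn_refl2 {u0 u1 p : n → k} (hp : p ⬝ᵥ p = -1) (hu0 : u0 ⬝ᵥ u0 ≠ 0) (hu1 : u1 ⬝ᵥ u1 ≠ 0)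
    (hz : (-(refl u0 *ᵥ p)) ⬝ᵥ (-(refl u0 *ᵥ p)) = -1) :
    Jn (sAlg n k) (mkS (refl u1 *ᵥ p) (-(refl u0 *ᵥ p)) (refl_norm hp) hz) := by
  let ut : k → n → k := fun t i => u0 i + t * (u1 i - u0 i)
  let D : k → k := fun t => ut t ⬝ᵥ ut t
  have ut0 : ut 0 = u0 := by funext i; show u0 i + 0 * (u1 i - u0 i) = u0 i; ring
  have ut1 : ut 1 = u1 := by funext i; show u0 i + 1 * (u1 i - u0 i) = u1 i; ring
  have hut : ∀ i, (fun t => ut t i) ∈ Pol k := fun i => pol_aff _ _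
  have hD : D ∈ Pol k :=
    regU_sum (A := Pol k) _ (fun l t => ut t l * ut t l) fun l _ => mul_mem (hut l) (hut l)
  have hup : (fun t => ut t ⬝ᵥ p) ∈ Pol k :=
    regU_sum (A := Pol k) _ (fun l t => ut t l * p l) fun l _ => mul_mem (hut l) (pol_const _)
  let γ : k → SpinG n k := fun t => mkS (refl (ut t) *ᵥ p) (-(refl u0 *ᵥ p)) (refl_norm hp) hz
  have hγ1 : γ 1 = mkS (refl u1 *ᵥ p) (-(refl u0 *ᵥ p)) (refl_norm hp) hz := by
    apply Subtype.ext
    show ι (Qn n k) (refl (ut 1) *ᵥ p) * _ = ι (Qn n k) (refl u1 *ᵥ p) * _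
    rw [ut1]
  rw [← hγ1]
  refine jn_curve γ hD (by show ut 0 ⬝ᵥ ut 0 ≠ 0; rw [ut0]; exact hu0)
    (by show ut 1 ⬝ᵥ ut 1 ≠ 0; rw [ut1]; exact hu1) ?_ ?_
  · have : γ 0 = mkS (refl u0 *ᵥ p) (-(refl u0 *ᵥ p)) (refl_norm hp) hz := by
      apply Subtype.ext
      show ι (Qn n k) (refl (ut 0) *ᵥ p) * _ = ι (Qn n k) (refl u0 *ᵥ p) * _
      rw [ut0]
    rw [this, mkS_one]
  · intro φ
    -- the linear functional of the moving vector
    let ψ : (n → k) →ₗ[k] k :=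
      φ ∘ₗ LinearMap.mulRight k (ι (Qn n k) (-(refl u0 *ᵥ p))) ∘ₗ (ι (Qn n k))
    have hψ : ∀ t, φ (γ t : Cln n k) = ψ (refl (ut t) *ᵥ p) := fun t => rfl
    have hψ' : ∀ t, ψ (refl (ut t) *ᵥ p) =
        ψ p - ∑ l ∈ Finset.univ, (2 * (ut t ⬝ᵥ p) * (D t)⁻¹) * (ut t l * ψ (Pi.single l 1)) := by
      intro t
      rw [refl_mulVec, map_sub, map_smul]
      congr 1
      have h3 : ψ (ut t) = ∑ l, ut t l * ψ (Pi.single l 1) := by
        conv_lhs => rw [← Finset.univ_sum_single (ut t)]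
        rw [map_sum]
        refine Finset.sum_congr rfl fun l _ => ?_
        have : (Pi.single l (ut t l) : n → k) = ut t l • Pi.single l 1 := by
          rw [← Pi.single_smul, smul_eq_mul, mul_one]
        rw [this, map_smul, smul_eq_mul]
      rw [h3, smul_eq_mul, div_eq_mul_inv, Finset.mul_sum]
    have hfun : (fun t => φ (γ t : Cln n k)) = (fun _ => ψ p) -
        (fun t => ∑ l ∈ Finset.univ,
          (2 * (ut t ⬝ᵥ p) * (D t)⁻¹) * (ut t l * ψ (Pi.single l 1))) := by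
      funext t
      rw [hψ, hψ']
      rfl
    rw [hfun]
    refine sub_mem (le_RegU _ _ (pol_const _)) (regU_sum _
      (fun l t => (2 * (ut t ⬝ᵥ p) * (D t)⁻¹) * (ut t l * ψ (Pi.single l 1))) fun l _ => ?_)
    have e1 : (fun t => 2 * (ut t ⬝ᵥ p) * (D t)⁻¹) ∈ RegU (Pol k) D :=
      mul_mem (mul_mem (le_RegU _ _ (pol_const 2)) (le_RegU _ _ hup))
        (inv_mem_RegU hD fun _ h => h)
    have e2 : (fun t => ut t l * ψ (Pi.single l 1)) ∈ RegU (Pol k) D :=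
      le_RegU _ _ (mul_mem (hut l) (pol_const _))
    exact mul_mem e1 e2

lemma neg_dot {v : n → k} (hv : v ⬝ᵥ v = -1) : (-v) ⬝ᵥ (-v) = -1 := by
  rw [neg_dotProduct, dotProduct_neg, neg_neg, hv]

/-- `ι v ι w` is joined to `1` when `v.w ≠ -1`. -/
lemma jn_generic {v w : n → k} (hv : v ⬝ᵥ v = -1) (hw : w ⬝ᵥ w = -1) (hvw : v ⬝ᵥ w ≠ -1) :
    Jn (sAlg n k) (mkS v w hv hw) := by
  -- z = - w, p = w
  have hz := neg_dot hw
  have hu1 : (v - w) ⬝ᵥ (v - w) ≠ 0 := by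
    rw [sub_dotProduct, dotProduct_sub, dotProduct_sub, hv, hw, dotProduct_comm w v]
    intro h
    apply hvw
    have : (2 : k) * (v ⬝ᵥ w + 1) = 0 := by linear_combination -h
    rcases mul_eq_zero.mp this with h2 | h2
    · exact absurd h2 two_ne_zero
    · linear_combination h2
  have hu0 : w ⬝ᵥ w ≠ 0 := by rw [hw]; exact neg_ne_zero.mpr one_ne_zero
  have e1 : refl (v - w) *ᵥ w = v := by
    rw [refl_mulVec]
    have h1 : (v - w) ⬝ᵥ (v - w) = -2 - 2 * (v ⬝ᵥ w) := by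
      rw [sub_dotProduct, dotProduct_sub, dotProduct_sub, hv, hw, dotProduct_comm w v]; ring
    have h2 : (v - w) ⬝ᵥ w = v ⬝ᵥ w + 1 := by rw [sub_dotProduct, hw]; ring
    have h3 : 2 * ((v - w) ⬝ᵥ w) / ((v - w) ⬝ᵥ (v - w)) = -1 := by
      rw [div_eq_iff hu1, h1, h2]; ring
    rw [h3]
    module
  have e0 : refl w *ᵥ w = -w := by
    rw [refl_mulVec]
    have h3 : 2 * (w ⬝ᵥ w) / (w ⬝ᵥ w) = 2 := by field_simp
    rw [h3]
    module
  have hz' : (-(refl w *ᵥ w)) ⬝ᵥ (-(refl w *ᵥ w)) = -1 := by rw [e0, neg_neg]; exact hw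
  have := jn_refl2 (u0 := w) (u1 := v - w) (p := w) hw hu0 hu1 hz'
  have h4 : mkS (refl (v - w) *ᵥ w) (-(refl w *ᵥ w)) (refl_norm hw) hz' = mkS v w hv hw := by
    apply Subtype.ext
    show ι (Qn n k) (refl (v - w) *ᵥ w) * ι (Qn n k) (-(refl w *ᵥ w)) = _
    rw [e1, e0, neg_neg]
    rfl
  rwa [h4] at this

/-- a unit vector (of square `-1`) orthogonal to `v` -/
lemma exists_orth [IsAlgClosed k] (hn : 2 ≤ Fintype.card n) {v : n → k} (hv : v ⬝ᵥ v = -1) :
    ∃ x : n → k, x ⬝ᵥ v = 0 ∧ x ⬝ᵥ x = -1 := by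
  obtain ⟨i, hi⟩ : ∃ i, 1 + v i ^ 2 ≠ 0 := by
    by_contra hcon
    push Not at hcon
    have h1 : ∑ i, (1 + v i ^ 2) = 0 := Finset.sum_eq_zero fun i _ => hcon i
    rw [Finset.sum_add_distrib] at h1
    have h2 : ∑ i, v i ^ 2 = -1 := by
      rw [← hv]
      exact Finset.sum_congr rfl fun i _ => by ring
    rw [h2] at h1
    simp only [Finset.sum_const, Finset.card_univ, nsmul_eq_mul, mul_one] at h1
    have h3 : ((Fintype.card n : ℕ) : k) = ((1 : ℕ) : k) := by rw [Nat.cast_one]; linear_combination h1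
    have h4 := Nat.cast_injective h3
    omega
  set e : n → k := Pi.single i 1 + v i • v with he
  have h1 : e ⬝ᵥ v = 0 := by
    rw [he, add_dotProduct, smul_dotProduct, hv, single_one_dotProduct, smul_eq_mul]; ring
  have h2 : e ⬝ᵥ e = 1 + v i ^ 2 := by
    have : e ⬝ᵥ e = e ⬝ᵥ Pi.single i 1 + v i * (e ⬝ᵥ v) := by
      conv_lhs => rw [he, dotProduct_add, dotProduct_smul, smul_eq_mul, ← he]
    rw [this, h1, dotProduct_single_one, he]
    simp only [Pi.add_apply, Pi.single_eq_same, Pi.smul_apply, smul_eq_mul]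
    ring
  obtain ⟨c, hc⟩ := IsAlgClosed.exists_pow_nat_eq (-(1 + v i ^ 2)⁻¹) (n := 2) two_pos
  refine ⟨c • e, by rw [smul_dotProduct, h1, smul_zero], ?_⟩
  rw [smul_dotProduct, dotProduct_smul, smul_eq_mul, smul_eq_mul, ← mul_assoc, ← pow_two, hc, h2,
    neg_mul, inv_mul_cancel₀ hi]

lemma jn_mkS [IsAlgClosed k] (hn : 2 ≤ Fintype.card n) {v w : n → k} (hv : v ⬝ᵥ v = -1)
    (hw : w ⬝ᵥ w = -1) : Jn (sAlg n k) (mkS v w hv hw) := by
  -- a vector z with v.z ≠ -1, z.w ≠ 1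
  obtain ⟨z, hz, h1, h2⟩ : ∃ z : n → k, z ⬝ᵥ z = -1 ∧ v ⬝ᵥ z ≠ -1 ∧ (-z) ⬝ᵥ w ≠ -1 := by
    obtain ⟨x, hxv, hx⟩ := exists_orth hn hv
    have hvx : v ⬝ᵥ x = 0 := by rw [dotProduct_comm]; exact hxv
    have hne : (0 : k) ≠ -1 := fun h => one_ne_zero (α := k) (by linear_combination h)
    by_cases h : x ⬝ᵥ w = 1
    · refine ⟨-x, neg_dot hx, by rw [dotProduct_neg, hvx, neg_zero]; exact hne, ?_⟩
      rw [neg_neg, h]
      exact one_ne_neg_one'
    · refine ⟨x, hx, by rw [hvx]; exact hne, ?_⟩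
      rw [neg_dotProduct]
      intro h3
      exact h (neg_injective h3)
  rw [mkS_mul v z w hv hz hw (neg_dot hz)]
  exact Jn.mul sAlg_rstable' (jn_generic hv hz h1) (jn_generic (neg_dot hz) hw h2)

end curves

section gens

variable {k : Type*} [Field k] {n : Type} [Fintype n] [DecidableEq n] [CharZero k]
  [IsAlgClosed k]

/-- The generators. -/
def SG (n : Type) [Fintype n] [DecidableEq n] (k : Type*) [Field k] : Submonoid (SpinG n k) :=
  Submonoid.closure {g | ∃ (v w : n → k) (hv : v ⬝ᵥ v = -1) (hw : w ⬝ᵥ w = -1),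
    g = mkS v w hv hw}

lemma lift_gen (A : Matrix n n k) (hA : Aᵀ * A = 1) :
    ∃ (y : Cln n k) (i : ZMod 2), y ∈ pinGroup (Qn n k) ∧ Cov y (star y) A i ∧
      (i = 0 → ∃ s ∈ SG n k, y = (s : Cln n k)) ∧
      (i = 1 → ∃ (v : n → k) (_ : v ⬝ᵥ v = -1), ∃ s ∈ SG n k, y = ι (Qn n k) v * (s : Cln n k)) := by
  have h := gens A hA
  clear hA
  induction h using Submonoid.closure_induction_left with
  | one =>
    refine ⟨1, 0, one_mem _, by rw [star_one]; exact Cov.one, fun _ => ⟨1, one_mem _, rfl⟩, ?_⟩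
    intro h
    exact absurd h (by decide)
  | mul_left R hR M _ ih =>
    obtain ⟨v, hv, rfl⟩ := hR
    obtain ⟨y, i, hy, hc, h0, h1⟩ := ih
    obtain ⟨c, hc2⟩ := IsAlgClosed.exists_pow_nat_eq (-(v ⬝ᵥ v)⁻¹) (n := 2) two_pos
    have hc0 : c ≠ 0 := by
      rintro rfl
      rw [zero_pow two_ne_zero] at hc2
      exact inv_ne_zero hv (neg_eq_zero.mp hc2.symm)
    have hs : (c • v) ⬝ᵥ (c • v) = -1 := by
      rw [smul_dotProduct, dotProduct_smul, smul_eq_mul, smul_eq_mul, ← mul_assoc, ← pow_two, hc2,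
        neg_mul, inv_mul_cancel₀ hv]
    have hs0 : (c • v) ⬝ᵥ (c • v) ≠ 0 := by rw [hs]; exact neg_ne_zero.mpr one_ne_zero
    have g1 := Cov.vec (c • v) hs0 1 one_ne_zero
    have g2 : (1 * ((c • v) ⬝ᵥ (c • v)))⁻¹ • ι (Qn n k) (c • v)
        = star (ι (Qn n k) (c • v)) := by
      rw [star_ι, hs, one_mul, inv_neg, inv_one, neg_smul, one_smul]
    rw [g2, one_smul, refl_smul v c hc0] at g1
    refine ⟨ι (Qn n k) (c • v) * y, 1 + i, mul_mem (iota_pin hs) hy, by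
      rw [star_mul]; exact g1.mul hc, ?_, ?_⟩
    · intro hi
      have hi1 : i = 1 := by
        rcases z2_cases i with rfl | rfl
        · exact absurd hi (by decide)
        · rfl
      obtain ⟨w, hw, s, hs', rfl⟩ := h1 hi1
      refine ⟨mkS (c • v) w hs hw * s, mul_mem (Submonoid.subset_closure ⟨_, _, hs, hw, rfl⟩) hs',
        ?_⟩
      show _ = ι (Qn n k) (c • v) * ι (Qn n k) w * (s : Cln n k)
      rw [mul_assoc]
    · intro hi
      have hi0 : i = 0 := by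
        rcases z2_cases i with rfl | rfl
        · rfl
        · exact absurd hi (by decide)
      obtain ⟨s, hs', rfl⟩ := h0 hi0
      exact ⟨c • v, hs, s, hs', rfl⟩

lemma exists_unit (hn : 1 ≤ Fintype.card n) : ∃ v : n → k, v ⬝ᵥ v = -1 := by
  obtain ⟨i⟩ : Nonempty n := Fintype.card_pos_iff.mp hn
  obtain ⟨c, hc⟩ := IsAlgClosed.exists_pow_nat_eq (-1 : k) (n := 2) two_pos
  refine ⟨c • Pi.single i 1, ?_⟩
  rw [smul_dotProduct, dotProduct_smul, smul_eq_mul, smul_eq_mul, ← mul_assoc, ← pow_two, hc,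
    single_one_dotProduct, Pi.single_eq_same, mul_one]

/-- Every element of the spin group is a product of elements `ι v * ι w`. -/
theorem spin_gen (hn : 1 ≤ Fintype.card n) (g : SpinG n k) : g ∈ SG n k := by
  obtain ⟨A, hg⟩ := spin_cov (g : Cln n k) g.2
  obtain ⟨y, i, hy, hc, h0, -⟩ := lift_gen A hg.orth
  obtain ⟨hi, c, hyc⟩ := hg.unique hc
  obtain ⟨s, hs, rfl⟩ := h0 hi.symm
  -- c² = 1
  have h3 := hc.mul_inv
  have h5 : c * c = 1 := by
    rw [hyc, CliffordAlgebra.star_smul, smul_mul_smul_comm, hg.mul_inv] at h3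
    apply algebraMap_inj (Qn n k)
    rw [Algebra.algebraMap_eq_smul_one, h3, map_one]
  rcases mul_self_eq_one_iff.mp h5 with h6 | h6
  · have : g = s := by
      apply Subtype.ext
      rw [hyc, h6, one_smul]
    rw [this]; exact hs
  · obtain ⟨v, hv⟩ := exists_unit (k := k) hn
    have h7 : g = mkS v v hv hv * s := by
      apply Subtype.ext
      show (g : Cln n k) = ι (Qn n k) v * ι (Qn n k) v * (s : Cln n k)
      rw [ι_sq, hv, map_neg, map_one, neg_mul, one_mul, hyc, h6, neg_smul, one_smul, neg_neg]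
    rw [h7]
    exact mul_mem (Submonoid.subset_closure ⟨v, v, hv, hv, rfl⟩) hs

/-- Row IRRS. -/
theorem spin_irr (hn : 2 ≤ Fintype.card n) : Irr (sAlg n k) := by
  have main : ∀ g : SpinG n k, Jn (sAlg n k) g := by
    intro g
    have hg := spin_gen (by omega) g
    unfold SG at hg
    induction hg using Submonoid.closure_induction with
    | mem x hx =>
      obtain ⟨v, w, hv, hw, rfl⟩ := hx
      exact jn_mkS hn hv hw
    | one => exact Jn.one _
    | mul x y _ _ hx hy => exact Jn.mul sAlg_rstable' hx hy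
  refine ⟨⟨1⟩, ?_⟩
  intro a ha b hb ha0 hb0
  obtain ⟨g, hg⟩ : ∃ g, a g ≠ 0 := by
    by_contra hcon
    push Not at hcon
    exact ha0 (funext hcon)
  obtain ⟨g', hg'⟩ : ∃ g, b g ≠ 0 := by
    by_contra hcon
    push Not at hcon
    exact hb0 (funext hcon)
  exact main (g⁻¹ * g') a ha b hb g hg (by rwa [mul_inv_cancel_left])

end gens

end Pool.Agent.Helper72.SPN
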