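import Mathlib

/-! # Polynomial square root of an invertible matrix (row SQRT of MP_005e41 extension) -/

namespace Pool.Agent.Helper72.SPN

open Polynomial

/-- Over an algebraically closed field of characteristic zero, a monic polynomial `p` with
`p(0) ≠ 0` admits `q` with `q² ≡ X` modulo `p`. -/
theorem exists_sq_mod {k : Type*} [Field k] [IsAlgClosed k] [CharZero k] (p : k[X])
    (hm : p.Monic) (h0 : p.coeff 0 ≠ 0) : ∃ q : k[X], p ∣ q ^ 2 - X := by
  classical
  -- square roots at the roots
  have hsq : ∀ l : k, ∃ z : k, z ^ 2 = l := fun l => IsAlgClosed.exists_pow_nat_eq l (by norm_num)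
  choose r hr using hsq
  set s := p.roots.toFinset with hs
  set L := Lagrange.interpolate s id r with hL
  have hLe : ∀ l ∈ s, eval l L = r l := by
    intro l hl
    have := Lagrange.eval_interpolate_at_node r (s := s) (v := id) (Set.injOn_id _) hl
    simpa [hL] using this
  -- `p` divides a power of `L² - X`
  have hdvd : ∃ N : ℕ, p ∣ (L ^ 2 - X) ^ N := by
    refine ⟨Multiset.card p.roots, ?_⟩
    have hp : p = (p.roots.map fun a => X - C a).prod := by
      have h1 := (IsAlgClosed.splits p).eq_prod_roots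
      rw [hm.leadingCoeff, C_1, one_mul] at h1
      exact h1
    have h2 : (p.roots.map fun a => X - C a).prod ∣ (p.roots.map fun _ => (L ^ 2 - X)).prod := by
      apply Multiset.prod_dvd_prod_of_dvd
      intro a ha
      rw [dvd_iff_isRoot, IsRoot.def, eval_sub, eval_pow, eval_X, hLe a (by
        rw [hs, Multiset.mem_toFinset]; exact ha), hr, sub_self]
    rw [Multiset.map_const', Multiset.prod_replicate] at h2
    rw [← hp] at h2
    exact h2
  -- the quotient ring
  let I := Ideal.span {p}
  let R := k[X] ⧸ I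
  let mk : k[X] →+* R := Ideal.Quotient.mk I
  have hmk : ∀ f : k[X], mk f = 0 ↔ p ∣ f := by
    intro f
    rw [Ideal.Quotient.eq_zero_iff_mem, Ideal.mem_span_singleton]
  have hnil : IsNilpotent (mk L ^ 2 - mk X) := by
    obtain ⟨N, hN⟩ := hdvd
    refine ⟨N, ?_⟩
    rw [← map_pow, ← map_sub, ← map_pow, hmk]
    exact hN
  have hXu : IsUnit (mk X) := by
    have h1 : X * divX p + C (p.coeff 0) = p := X_mul_divX_add p
    have h2 : mk X * mk (divX p) = - mk (C (p.coeff 0)) := by
      have h3 : mk p = 0 := (hmk p).mpr dvd_rfl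
      rw [← h1, map_add, map_mul] at h3
      exact eq_neg_of_add_eq_zero_left h3
    have h4 : mk X * (mk (divX p) * (- mk (C (p.coeff 0)⁻¹))) = 1 := by
      have h5 : mk (C (p.coeff 0)) * mk (C (p.coeff 0)⁻¹) = 1 := by
        rw [← map_mul, ← C_mul, mul_inv_cancel₀ h0, C_1, map_one]
      rw [← mul_assoc, h2, ← h5]
      ring
    exact IsUnit.of_mul_eq_one _ h4
  have hLu : IsUnit (mk L) := by
    have h1 : IsUnit (mk L ^ 2) := by
      have := IsNilpotent.isUnit_add_left_of_commute hnil hXu (Commute.all _ _)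
      rwa [add_sub_cancel] at this
    exact (isUnit_pow_iff (two_ne_zero)).mp h1
  have h2u : IsUnit (2 : R) := by
    have h3 : mk (C (2 : k)) * mk (C (2 : k)⁻¹) = 1 := by
      rw [← map_mul, ← C_mul, mul_inv_cancel₀ two_ne_zero, C_1, map_one]
    have h4 : mk (C (2 : k)) = 2 := by
      rw [show (C (2 : k) : k[X]) = 2 from rfl, map_ofNat]
    rw [← h4]
    exact IsUnit.of_mul_eq_one _ h3
  -- Newton
  have key := existsUnique_nilpotent_sub_and_aeval_eq_zero (R := R) (S := R)
    (P := X ^ 2 - C (mk X)) (x := mk L)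
    (by simpa using hnil)
    (by
      have : derivative (X ^ 2 - C (mk X) : R[X]) = 2 * X := by
        simp only [derivative_sub, derivative_C, sub_zero, derivative_X_pow]
        have h2 : (C ((2 : ℕ) : R) : R[X]) = 2 := by
          rw [Nat.cast_ofNat]; exact map_ofNat C 2
        rw [h2]; simp
      rw [this]
      simpa using h2u.mul hLu)
  obtain ⟨x, ⟨_, hx⟩, _⟩ := key
  obtain ⟨q, hq⟩ := Ideal.Quotient.mk_surjective x
  refine ⟨q, ?_⟩
  rw [← hmk, map_sub, map_pow]
  have : mk q = x := hq
  rw [this]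
  simpa using hx

/-- Row SQRT: a polynomial square root of an invertible matrix. -/
theorem sqrt_poly {k : Type*} [Field k] [IsAlgClosed k] [CharZero k] {n : Type*} [Fintype n]
    [DecidableEq n] (A : Matrix n n k) (hA : IsUnit A.det) : ∃ q : k[X], (aeval A q) ^ 2 = A := by
  have h0 : A.charpoly.coeff 0 ≠ 0 := by
    intro h
    have := Matrix.det_eq_sign_charpoly_coeff A
    rw [h, mul_zero] at this
    rw [this] at hA
    exact not_isUnit_zero hA
  obtain ⟨q, g, hg⟩ := exists_sq_mod A.charpoly (Matrix.charpoly_monic A) h0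
  refine ⟨q, ?_⟩
  have h1 := congrArg (aeval A) hg
  rw [map_sub, map_pow, aeval_X, map_mul, Matrix.aeval_self_charpoly, zero_mul, sub_eq_zero] at h1
  exact h1

end Pool.Agent.Helper72.SPN
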